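import Pool.Agent.FU2.Stmts

/-! FU2, row TAL. -/

set_option autoImplicit false

open Finset

namespace Pool.Agent.FU2.H09

open Pool.Agent.FU2 Pool.Agent.FUR

variable {N : ℕ}

theorem fc_one_empty : fc (fun _ : Fin N → Bool => (1 : ℝ)) (∅ : Finset (Fin N)) = 1 := by
  unfold fc ch
  simp

theorem sum_ch (S : Finset (Fin N)) (hS : S ≠ ∅) : ∑ x : Fin N → Bool, ch S x = 0 := by
  obtain ⟨v, hv⟩ := Finset.nonempty_iff_ne_empty.mpr hS
  have hinv : ∀ x : Fin N → Bool, ch S (Function.update x v (!(x v))) = - ch S x := by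
    intro x
    unfold ch
    rw [← Finset.mul_prod_erase S _ hv, ← Finset.mul_prod_erase S (fun v => if x v then (-1 : ℝ) else 1) hv]
    have h1 : ∏ w ∈ S.erase v, (if Function.update x v (!(x v)) w then (-1 : ℝ) else 1)
        = ∏ w ∈ S.erase v, (if x w then (-1 : ℝ) else 1) := by
      apply Finset.prod_congr rfl
      intro w hw
      rw [Function.update_of_ne (Finset.ne_of_mem_erase hw)]
    rw [h1, Function.update_self]
    rcases h : x v with _ | _ <;> simp
  have hbij : ∑ x : Fin N → Bool, ch S (Function.update x v (!(x v)))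
      = ∑ x : Fin N → Bool, ch S x := by
    apply Fintype.sum_bijective (fun x : Fin N → Bool => Function.update x v (!(x v)))
    · apply Function.Involutive.bijective
      intro x
      funext w
      by_cases hw : w = v
      · subst hw
        simp
      · simp [Function.update_of_ne hw]
    · intro x
      rfl
  have h2 : ∑ x : Fin N → Bool, ch S (Function.update x v (!(x v)))
      = - ∑ x : Fin N → Bool, ch S x := by
    rw [← Finset.sum_neg_distrib]
    exact Finset.sum_congr rfl fun x _ => hinv x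
  linarith

theorem wn_one (t : ℝ) : wn t (fun _ : Fin N → Bool => (1 : ℝ)) = 1 := by
  unfold wn
  rw [Finset.sum_eq_single (∅ : Finset (Fin N))]
  · rw [fc_one_empty]
    simp
  · intro S _ hS
    have : fc (fun _ : Fin N → Bool => (1 : ℝ)) S = 0 := by
      unfold fc
      have h1 : ∑ x : Fin N → Bool, (1 : ℝ) * ch S x = 0 := by
        rw [← sum_ch S hS]
        exact Finset.sum_congr rfl fun x _ => one_mul _
      rw [h1, zero_div]
    rw [this]
    ring
  · intro h
    exact absurd (Finset.mem_univ _) h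

theorem tal (hF : FMLStmt) : TALStmt := by
  intro N f s κ hLC hκ
  obtain ⟨F, hFe, hFl⟩ := hLC
  have ht : 0 < Real.exp κ := Real.exp_pos κ
  have h1 := hF N F (Real.exp κ) (fun _ => (1 : ℝ)) ht
  rw [wn_one, mul_one] at h1
  have e1 : (fun x => ind (fun x => F.ev x) x * (1 : ℝ)) = ind f := by
    funext x
    rw [mul_one]
    have : (fun x => F.ev x) = f := funext hFe
    rw [this]
  rw [e1] at h1
  have e2 : wn (Real.exp κ) (ind f)
      = ∑ S : Finset (Fin N), Real.exp (2 * κ * S.card) * fc (ind f) S ^ 2 := by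
    unfold wn
    apply Finset.sum_congr rfl
    intro S _
    rw [← Real.exp_nat_mul]
    congr 2
    push_cast
    ring
  rw [← e2]
  refine le_trans h1 ?_
  have e3 : (Real.exp κ + (Real.exp κ)⁻¹) / 2 = Real.cosh κ := by
    rw [Real.cosh_eq, Real.exp_neg]
  rw [e3]
  have h3 : Real.cosh κ ≤ Real.exp (κ ^ 2 / 2) := Real.cosh_le_exp_half_sq κ
  have h4 : Real.cosh κ ^ 2 ≤ Real.exp (κ ^ 2) := by
    have h5 : Real.cosh κ ^ 2 ≤ Real.exp (κ ^ 2 / 2) ^ 2 :=
      pow_le_pow_left₀ (Real.cosh_pos κ).le h3 2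
    refine le_trans h5 (le_of_eq ?_)
    rw [← Real.exp_nat_mul]
    congr 1
    push_cast
    ring
  have h6 : (Real.cosh κ ^ 2) ^ F.lv ≤ Real.exp (κ ^ 2) ^ F.lv :=
    pow_le_pow_left₀ (by positivity) h4 _
  refine le_trans h6 ?_
  rw [← Real.exp_nat_mul]
  apply Real.exp_le_exp.mpr
  have h7 : (F.lv : ℝ) ≤ s := by exact_mod_cast hFl
  have h8 : 0 ≤ κ ^ 2 := sq_nonneg κ
  calc (F.lv : ℝ) * κ ^ 2 ≤ (s : ℝ) * κ ^ 2 := mul_le_mul_of_nonneg_right h7 h8
    _ = κ ^ 2 * s := mul_comm _ _

end Pool.Agent.FU2.H09
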