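import Pool.Agent.FU2.Stmts

/-! FU2, row FML. -/

set_option autoImplicit false

open Finset

namespace Pool.Agent.FU2.H09

open Pool.Agent.FU2 Pool.Agent.FUR

variable {N : ℕ}

theorem wn_nonneg (t : ℝ) (ht : 0 < t) (g : RF N) : 0 ≤ wn t g := by
  unfold wn
  apply Finset.sum_nonneg
  intro S _
  positivity

theorem wn_zero (t : ℝ) : wn t (fun _ : Fin N → Bool => (0 : ℝ)) = 0 := by
  unfold wn
  apply Finset.sum_eq_zero
  intro S _
  have : fc (fun _ : Fin N → Bool => (0 : ℝ)) S = 0 := by
    unfold fc
    simp
  rw [this]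
  ring

theorem one_le_C (t : ℝ) (ht : 0 < t) : 1 ≤ ((t + t⁻¹) / 2) ^ 2 := by
  have h1 : 1 ≤ (t + t⁻¹) / 2 := by
    have h2 : t * t⁻¹ = 1 := mul_inv_cancel₀ ht.ne'
    have h3 : 0 < t⁻¹ := inv_pos.mpr ht
    by_contra h
    push Not at h
    have h4 : t + t⁻¹ < 2 := by linarith
    have h5 : 0 ≤ (t - t⁻¹) ^ 2 := sq_nonneg _
    have h6 : (t + t⁻¹) ^ 2 = (t - t⁻¹) ^ 2 + 4 * (t * t⁻¹) := by ring
    have h7 : (t + t⁻¹) ^ 2 < 4 := by
      have : (t + t⁻¹) ^ 2 < 2 ^ 2 := by
        apply pow_lt_pow_left₀ h4 (by positivity) (by norm_num)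
      linarith
    rw [h2] at h6
    linarith
  exact one_le_pow₀ h1

theorem ind_and (G H : BF N) (x : Fin N → Bool) :
    ind (fun x => G x && H x) x = ind G x * ind H x := by
  unfold ind
  rcases hg : G x with _ | _ <;> rcases hh : H x with _ | _ <;> simp [hg, hh]

theorem ind_or (G H : BF N) (x : Fin N → Bool) :
    ind (fun x => !(G x || H x)) x = (1 - ind G x) * (1 - ind H x) := by
  unfold ind
  rcases hg : G x with _ | _ <;> rcases hh : H x with _ | _ <;> simp [hg, hh]

theorem ind_not (G : BF N) (x : Fin N → Bool) :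
    ind (fun x => !(G x)) x = 1 - ind G x := by
  unfold ind
  rcases hg : G x with _ | _ <;> simp [hg]

theorem fml (hO : OBLStmt) (hL : LITStmt) : FMLStmt := by
  intro N F t g ht
  set C : ℝ := ((t + t⁻¹) / 2) ^ 2 with hC
  have hC1 : 1 ≤ C := one_le_C t ht
  have hC0 : 0 ≤ C := by linarith
  have main : ∀ F : Fm (Fin N), ∀ g : RF N,
      wn t (fun x => ind (fun x => F.ev x) x * g x) ≤ C ^ F.lv * wn t g := by
    intro F
    induction F with
    | cst b =>
      intro g
      have e0 : (Fm.cst b : Fm (Fin N)).lv = 0 := rfl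
      rw [e0, pow_zero, one_mul]
      cases b with
      | true =>
        have : (fun x => ind (fun x => (Fm.cst true : Fm (Fin N)).ev x) x * g x) = g := by
          funext x
          simp [ind, Fm.ev]
        rw [this]
      | false =>
        have : (fun x => ind (fun x => (Fm.cst false : Fm (Fin N)).ev x) x * g x)
            = fun _ => (0 : ℝ) := by
          funext x
          simp [ind, Fm.ev]
        rw [this, wn_zero]
        exact wn_nonneg t ht g
    | lit v b =>
      intro g
      have e0 : (Fm.lit v b : Fm (Fin N)).lv = 1 := rfl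
      rw [e0, pow_one]
      exact hL N v b t g ht
    | and G H ihG ihH =>
      intro g
      have e0 : (Fm.and G H).lv = G.lv + H.lv := rfl
      have e1 : (fun x => ind (fun x => (Fm.and G H).ev x) x * g x)
          = fun x => ind (fun x => G.ev x) x * (ind (fun x => H.ev x) x * g x) := by
        funext x
        have := ind_and (fun x => G.ev x) (fun x => H.ev x) x
        rw [← mul_assoc, ← this]
        rfl
      rw [e0, e1, pow_add, mul_assoc]
      refine le_trans (ihG (fun x => ind (fun x => H.ev x) x * g x)) ?_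
      exact mul_le_mul_of_nonneg_left (ihH g) (pow_nonneg hC0 _)
    | or G H ihG ihH =>
      intro g
      have e0 : (Fm.or G H).lv = G.lv + H.lv := rfl
      have hG := hO N (fun x => G.ev x) t (C ^ G.lv) ht (one_le_pow₀ hC1) ihG
      have hH := hO N (fun x => H.ev x) t (C ^ H.lv) ht (one_le_pow₀ hC1) ihH
      have hn : ∀ g : RF N, wn t (fun x => ind (fun x => !((Fm.or G H).ev x)) x * g x)
          ≤ C ^ (G.lv + H.lv) * wn t g := by
        intro g
        have e1 : (fun x => ind (fun x => !((Fm.or G H).ev x)) x * g x)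
            = fun x => (1 - ind (fun x => G.ev x) x) * ((1 - ind (fun x => H.ev x) x) * g x) := by
          funext x
          have := ind_or (fun x => G.ev x) (fun x => H.ev x) x
          rw [← mul_assoc, ← this]
          rfl
        rw [e1, pow_add, mul_assoc]
        refine le_trans (hG (fun x => (1 - ind (fun x => H.ev x) x) * g x)) ?_
        exact mul_le_mul_of_nonneg_left (hH g) (pow_nonneg hC0 _)
      have hf := hO N (fun x => !((Fm.or G H).ev x)) t (C ^ (G.lv + H.lv)) ht
        (one_le_pow₀ hC1) hn g
      have e2 : (fun x => ind (fun x => (Fm.or G H).ev x) x * g x)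
          = fun x => (1 - ind (fun x => !((Fm.or G H).ev x)) x) * g x := by
        funext x
        have := ind_not (fun x => (Fm.or G H).ev x) x
        rw [this, sub_sub_cancel]
      rw [e0, e2]
      exact hf
  exact main F g

end Pool.Agent.FU2.H09
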